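import Mathlib

/-!
# A shift operator with the shadowing property that is not generalized hyperbolic

Over `𝕜 = ℝ` or `ℂ` there are a Banach space `X` and a bounded invertible operator `A` of `X` such
that for every `p ∈ [1, ∞]` the shift operator `(x_n) ↦ (A x_{n+1})` on `ℓ^p(ℤ, X)` (the shift
operator generated by the constant sequence `S_n = A`) has the shadowing property but is not
generalized hyperbolic.

Construction.  Let `q : ℓ^∞ → ℓ^∞ / c₀` be the quotient map and let `X` be the space of all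
sequences `(x_n)_{n ∈ ℤ}` in `ℓ^∞` with `sup_n max (2^{-|n|} ‖x_n‖, 2^n ‖q x_n‖) < ∞`; `A` is the
shift `(x_n) ↦ (x_{n-1})`.  A vector `x` at a place `n ≥ 0` is stable iff `x ∈ c₀`, and every vector
is the sum of a stable and an unstable one, with norm control: lift `q x` to `ℓ^∞` (nonlinearly).
This gives shadowing.  A linear splitting would give a projection of `ℓ^∞` onto `c₀`, which does not
exist (Phillips).
-/

open scoped ENNReal Topology
open Filter Set

noncomputable section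

namespace Pool.Agent.Results.MP_0764b2_an.ShadowingNotGenHyp

/-! ### Definitions used in the statement -/

/-- A Banach space over `𝕜`. -/
structure BanachSp (𝕜 : Type) [RCLike 𝕜] where
  /-- The underlying type. -/
  carrier : Type
  [grp : NormedAddCommGroup carrier]
  [sp : NormedSpace 𝕜 carrier]
  [complete : CompleteSpace carrier]

attribute [instance] BanachSp.grp BanachSp.sp BanachSp.complete

section Statement

variable {𝕜 : Type} [RCLike 𝕜]

/-- Bounded invertible linear operators of the Banach space `X` (with bounded inverse). -/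
abbrev Op (X : BanachSp 𝕜) : Type := X.carrier ≃L[𝕜] X.carrier

/-- The value `T x`. -/
def app {X : BanachSp 𝕜} (T : Op X) (x : X.carrier) : X.carrier := T x

/-- The inverse operator `T⁻¹`. -/
def inv {X : BanachSp 𝕜} (T : Op X) : Op X := T.symm

/-- The shadowing property of the invertible operator `T`: there is `K > 0` such that for every
bounded sequence `(z_n)` there is a bounded sequence `(y_n)` with `y_{n+1} - T y_n = z_n` and
`sup ‖y_n‖ ≤ K sup ‖z_n‖`. -/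
def HasShadowing {X : BanachSp 𝕜} (T : Op X) : Prop :=
  ∃ K : ℝ, 0 < K ∧ ∀ z : ℤ → X.carrier, Bornology.IsBounded (range z) →
    ∃ y : ℤ → X.carrier, Bornology.IsBounded (range y) ∧ (∀ n, y (n + 1) - app T (y n) = z n) ∧
      (⨆ n, ‖y n‖) ≤ K * ⨆ n, ‖z n‖

/-- `T` maps the subspace `M` into itself and the restriction `T|_M` has spectral radius `< 1`.
By Gelfand's formula `r(S) = inf_{n ≥ 1} ‖Sⁿ‖^{1/n}` the latter means that some power `n ≥ 1` of
the restriction has norm `< 1`. -/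
def InvariantSpectralRadiusLtOne {X : BanachSp 𝕜} (T : Op X) (M : Submodule 𝕜 X.carrier) : Prop :=
  (∀ x ∈ M, app T x ∈ M) ∧
    ∃ n : ℕ, 1 ≤ n ∧ ∃ r : ℝ, r < 1 ∧ ∀ x ∈ M, ‖(app T)^[n] x‖ ≤ r * ‖x‖

/-- `T` is generalized hyperbolic: `X = M ⊕ N` with `M`, `N` closed, `T M ⊆ M`, `T⁻¹ N ⊆ N`, and
`T|_M`, `T⁻¹|_N` of spectral radius `< 1`. -/
def IsGeneralizedHyperbolic {X : BanachSp 𝕜} (T : Op X) : Prop :=
  ∃ M N : Submodule 𝕜 X.carrier, IsClosed (M : Set X.carrier) ∧ IsClosed (N : Set X.carrier) ∧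
    IsCompl M N ∧ InvariantSpectralRadiusLtOne T M ∧ InvariantSpectralRadiusLtOne (inv T) N

/-- The Banach space `ℓ^p(ℤ, X)` of bilateral `X`-valued sequences, `1 ≤ p ≤ ∞`. -/
def seqSp (X : BanachSp 𝕜) (p : ℝ≥0∞) [Fact (1 ≤ p)] : BanachSp 𝕜 where
  carrier := lp (fun _ : ℤ => X.carrier) p

/-- The `n`-th term of a sequence in `ℓ^p(ℤ, X)`. -/
def term {X : BanachSp 𝕜} {p : ℝ≥0∞} [Fact (1 ≤ p)] (x : (seqSp X p).carrier) (n : ℤ) :
    X.carrier :=
  (show lp (fun _ : ℤ => X.carrier) p from x) n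

/-- `σ` is the shift operator on `ℓ^p(ℤ, X)` generated by the sequence `S = (S_n)` of invertible
operators of `X` with `S_n`, `S_n⁻¹` uniformly bounded:
`σ ((x_n)_n) = (S_{n+1} (x_{n+1}))_n`. -/
def IsShiftOperator {X : BanachSp 𝕜} {p : ℝ≥0∞} [Fact (1 ≤ p)] (S : ℤ → Op X)
    (σ : Op (seqSp X p)) : Prop :=
  (∃ C : ℝ, ∀ n x, ‖app (S n) x‖ ≤ C * ‖x‖ ∧ ‖app (inv (S n)) x‖ ≤ C * ‖x‖) ∧
    ∀ x n, term (app σ x) n = app (S (n + 1)) (term x (n + 1))

end Statement

/-! ### Proof -/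

section GenS

variable {𝕜 : Type} [RCLike 𝕜] {Y : Type} [NormedAddCommGroup Y] [NormedSpace 𝕜 Y]

/-- The shadowing property of the invertible operator `T`: there is `K > 0` such that for every
bounded sequence `(z_n)` there is a bounded sequence `(y_n)` with `y_{n+1} - T y_n = z_n` and
`sup ‖y_n‖ ≤ K sup ‖z_n‖`. -/
def ShadowingAux (T : Y ≃L[𝕜] Y) : Prop :=
  ∃ K : ℝ, 0 < K ∧ ∀ z : ℤ → Y, Bornology.IsBounded (range z) →
    ∃ y : ℤ → Y, Bornology.IsBounded (range y) ∧ (∀ n, y (n + 1) - T (y n) = z n) ∧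
      (⨆ n, ‖y n‖) ≤ K * ⨆ n, ‖z n‖

/-- The restriction of `T` to the invariant subspace `M` has spectral radius `< 1`. By Gelfand's
formula `r(S) = inf_{n ≥ 1} ‖Sⁿ‖^{1/n}`, this means that some power `n ≥ 1` of the restriction has
norm `< 1`. -/
def PowContractsOn (T : Y ≃L[𝕜] Y) (M : Submodule 𝕜 Y) : Prop :=
  ∃ n : ℕ, 1 ≤ n ∧ ∃ r : ℝ, r < 1 ∧ ∀ x ∈ M, ‖T^[n] x‖ ≤ r * ‖x‖

/-- `T` is generalized hyperbolic: `Y = M ⊕ N` with `M`, `N` closed, `T M ⊆ M`, `T⁻¹ N ⊆ N`, and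
`T|_M`, `T⁻¹|_N` of spectral radius `< 1`. -/
def GenHypAux (T : Y ≃L[𝕜] Y) : Prop :=
  ∃ M N : Submodule 𝕜 Y, IsClosed (M : Set Y) ∧ IsClosed (N : Set Y) ∧ IsCompl M N ∧
    (∀ x ∈ M, T x ∈ M) ∧ (∀ x ∈ N, T.symm x ∈ N) ∧
    PowContractsOn T M ∧ PowContractsOn T.symm N

/-- Every vector splits (not necessarily linearly) into an exponentially stable and an
exponentially unstable vector. -/
def Splits (T : Y ≃L[𝕜] Y) : Prop :=
  ∃ C : ℝ, 0 ≤ C ∧ ∀ y : Y, ∃ s u : Y, s + u = y ∧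
    (∀ k : ℕ, ‖T^[k] s‖ ≤ C * (1 / 2) ^ k * ‖y‖) ∧
    (∀ k : ℕ, ‖T.symm^[k] u‖ ≤ C * (1 / 2) ^ k * ‖y‖)

theorem Splits.shadowingAux [CompleteSpace Y] {T : Y ≃L[𝕜] Y} (h : Splits T) :
    ShadowingAux T := by
  obtain ⟨C, hC, h⟩ := h
  choose s u hsu hs hu using h
  refine ⟨4 * C + 1, by positivity, fun z hz => ?_⟩
  set Z : ℝ := ⨆ n, ‖z n‖ with hZ
  have hbdd : BddAbove (range fun n => ‖z n‖) := by
    obtain ⟨R, hR⟩ := hz.exists_norm_le
    refine ⟨R, ?_⟩
    rintro _ ⟨n, rfl⟩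
    exact hR _ ⟨n, rfl⟩
  have hzZ : ∀ n, ‖z n‖ ≤ Z := fun n => le_ciSup hbdd n
  have hZ0 : 0 ≤ Z := (norm_nonneg _).trans (hzZ 0)
  have hgeo : Summable (fun k : ℕ => C * (1 / 2 : ℝ) ^ k * Z) :=
    ((summable_geometric_two).mul_left C).mul_right Z
  have hgeoS : ∑' k : ℕ, C * (1 / 2 : ℝ) ^ k * Z = 2 * C * Z := by
    rw [tsum_mul_right, tsum_mul_left, tsum_geometric_two]
    ring
  -- forward part
  set a : ℤ → Y := fun n => ∑' k : ℕ, T^[k] (s (z (n - 1 - k))) with ha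
  set b : ℤ → Y := fun n => ∑' k : ℕ, T.symm^[k + 1] (u (z (n + k))) with hb
  have hsb : ∀ (k : ℕ) (n : ℤ), ‖T^[k] (s (z n))‖ ≤ C * (1 / 2) ^ k * Z := by
    intro k n
    refine (hs (z n) k).trans ?_
    gcongr
    exact hzZ n
  have hub : ∀ (k : ℕ) (n : ℤ), ‖T.symm^[k] (u (z n))‖ ≤ C * (1 / 2) ^ k * Z := by
    intro k n
    refine (hu (z n) k).trans ?_
    gcongr
    exact hzZ n
  have hub1 : ∀ (k : ℕ) (n : ℤ), ‖T.symm^[k + 1] (u (z n))‖ ≤ C * (1 / 2) ^ k * Z := by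
    intro k n
    refine (hub (k + 1) n).trans ?_
    have : (1 / 2 : ℝ) ^ (k + 1) ≤ (1 / 2) ^ k := by
      rw [pow_succ]
      have : (0:ℝ) < (1 / 2) ^ k := by positivity
      linarith
    gcongr
  have hsS : ∀ n : ℤ, Summable (fun k : ℕ => T^[k] (s (z (n - 1 - k)))) := fun n =>
    Summable.of_norm_bounded hgeo (fun k => hsb k _)
  have huS : ∀ n : ℤ, Summable (fun k : ℕ => T.symm^[k + 1] (u (z (n + k)))) := fun n =>
    Summable.of_norm_bounded hgeo (fun k => hub1 k _)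
  have han : ∀ n, ‖a n‖ ≤ 2 * C * Z := by
    intro n
    rw [← hgeoS]
    exact tsum_of_norm_bounded hgeo.hasSum (fun k => hsb k _)
  have hbn : ∀ n, ‖b n‖ ≤ 2 * C * Z := by
    intro n
    rw [← hgeoS]
    exact tsum_of_norm_bounded hgeo.hasSum (fun k => hub1 k _)
  have haT : ∀ n, a (n + 1) = s (z n) + T (a n) := by
    intro n
    have h1 : T (a n) = ∑' k : ℕ, T^[k + 1] (s (z (n - 1 - k))) := by
      simp only [ha, Function.iterate_succ_apply']
      exact T.map_tsum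
    rw [h1]
    simp only [ha]
    rw [(hsS (n + 1)).tsum_eq_zero_add]
    congr 1
    · simp
    · apply tsum_congr
      intro k
      congr 3
      push_cast
      ring
  have hbT : ∀ n, T (b n) = u (z n) + b (n + 1) := by
    intro n
    have h1 : T (b n) = ∑' k : ℕ, T.symm^[k] (u (z (n + k))) := by
      simp only [hb, Function.iterate_succ_apply']
      rw [T.map_tsum]
      simp
    have h2 : Summable (fun k : ℕ => T.symm^[k] (u (z (n + k)))) :=
      Summable.of_norm_bounded hgeo (fun k => hub k _)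
    rw [h1, h2.tsum_eq_zero_add]
    congr 1
    · simp
    · simp only [hb]
      apply tsum_congr
      intro k
      congr 3
      push_cast
      ring
  have hyn : ∀ n, ‖a n - b n‖ ≤ 4 * C * Z := by
    intro n
    calc ‖a n - b n‖ ≤ ‖a n‖ + ‖b n‖ := norm_sub_le _ _
      _ ≤ 2 * C * Z + 2 * C * Z := add_le_add (han n) (hbn n)
      _ = 4 * C * Z := by ring
  refine ⟨fun n => a n - b n, ?_, ?_, ?_⟩
  · rw [isBounded_iff_forall_norm_le]
    refine ⟨4 * C * Z, ?_⟩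
    rintro _ ⟨n, rfl⟩
    exact hyn n
  · intro n
    have h1 : a (n + 1) - b (n + 1) - T (a n - b n) = s (z n) + u (z n) := by
      rw [haT, map_sub, hbT]
      abel
    rw [hsu] at h1
    exact h1
  · refine ciSup_le (fun n => (hyn n).trans ?_)
    nlinarith

/-- Linear but not necessarily projection-valued splitting with decay. -/
def Star (T : Y ≃L[𝕜] Y) : Prop :=
  ∃ (P : Y →L[𝕜] Y) (n m : ℕ) (r C : ℝ), 1 ≤ n ∧ 1 ≤ m ∧ 0 ≤ r ∧ r < 1 ∧ 0 ≤ C ∧
    (∀ (j : ℕ) (y : Y), ‖T^[n * j] (P y)‖ ≤ C * r ^ j * ‖y‖) ∧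
    (∀ (j : ℕ) (y : Y), ‖T.symm^[m * j] (y - P y)‖ ≤ C * r ^ j * ‖y‖)

lemma PowContractsOn.decay {T : Y ≃L[𝕜] Y} {M : Submodule 𝕜 Y}
    (hM : ∀ x ∈ M, T x ∈ M) (h : PowContractsOn T M) :
    ∃ n : ℕ, 1 ≤ n ∧ ∃ r : ℝ, 0 ≤ r ∧ r < 1 ∧
      ∀ x ∈ M, ∀ j : ℕ, ‖T^[n * j] x‖ ≤ r ^ j * ‖x‖ := by
  obtain ⟨n, hn, r, hr, h⟩ := h
  refine ⟨n, hn, max r 0, le_max_right _ _, max_lt hr one_pos, ?_⟩
  have hMk : ∀ k : ℕ, ∀ x ∈ M, T^[k] x ∈ M := by
    intro k
    induction k with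
    | zero => intro x hx; simpa using hx
    | succ k ih => intro x hx; rw [Function.iterate_succ_apply']; exact hM _ (ih x hx)
  intro x hx j
  induction j with
  | zero => simp
  | succ j ih =>
    rw [Nat.mul_succ, Nat.add_comm, Function.iterate_add_apply]
    calc ‖T^[n] (T^[n * j] x)‖ ≤ r * ‖T^[n * j] x‖ := h _ (hMk _ _ hx)
      _ ≤ max r 0 * ‖T^[n * j] x‖ := by gcongr; exact le_max_left _ _
      _ ≤ max r 0 * ((max r 0) ^ j * ‖x‖) := by gcongr
      _ = (max r 0) ^ (j + 1) * ‖x‖ := by ring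

theorem GenHypAux.star [CompleteSpace Y] {T : Y ≃L[𝕜] Y}
    (h : GenHypAux T) : Star T := by
  obtain ⟨M, N, hMc, hNc, hMN, hM, hN, hTM, hTN⟩ := h
  obtain ⟨n, hn, r, hr0, hr1, hr⟩ := hTM.decay hM
  obtain ⟨m, hm, t, ht0, ht1, ht⟩ := hTN.decay hN
  set P : Y →L[𝕜] Y := M.subtypeL.comp
    (M.projectionOntoL N (Submodule.IsCompl.isTopCompl_of_isClosed hMN hMc hNc)) with hP
  have hPM : ∀ y, P y ∈ M := fun y => Submodule.coe_mem _
  have hPN : ∀ y, y - P y ∈ N := by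
    intro y
    rw [← Submodule.projectionOntoL_apply_eq_zero_iff
      (Submodule.IsCompl.isTopCompl_of_isClosed hMN hMc hNc), map_sub, sub_eq_zero]
    exact (Submodule.projectionOntoL_apply_left _ _).symm
  refine ⟨P, n, m, max r t, 1 + ‖P‖, hn, hm, le_max_of_le_left hr0, max_lt hr1 ht1, by positivity,
    ?_, ?_⟩
  · intro j y
    calc ‖T^[n * j] (P y)‖ ≤ r ^ j * ‖P y‖ := hr _ (hPM y) j
      _ ≤ (max r t) ^ j * ((1 + ‖P‖) * ‖y‖) := by
        gcongr
        · exact le_max_left _ _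
        · refine (P.le_opNorm y).trans ?_
          gcongr
          linarith
      _ = _ := by ring
  · intro j y
    calc ‖T.symm^[m * j] (y - P y)‖ ≤ t ^ j * ‖y - P y‖ := ht _ (hPN y) j
      _ ≤ (max r t) ^ j * ((1 + ‖P‖) * ‖y‖) := by
        gcongr
        · exact le_max_right _ _
        · refine (norm_sub_le _ _).trans ?_
          have := P.le_opNorm y
          linarith
      _ = _ := by ring


/-! ### The shift operator `(y_n) ↦ (A y_{n+1})` on `ℓ^p(ℤ, Y)` -/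

section Lp

variable {p : ℝ≥0∞} [hp : Fact (1 ≤ p)]

omit [NormedSpace 𝕜 Y] in
lemma memlp_comp {f : ℤ → Y} (hf : Memℓp f p) (e : ℤ ≃ ℤ) : Memℓp (fun n => f (e n)) p := by
  obtain (rfl | rfl | hp') := p.trichotomy
  · exact absurd hp.out (by simp)
  · rw [memℓp_infty_iff] at hf ⊢
    refine hf.mono ?_
    rintro _ ⟨n, rfl⟩
    exact ⟨e n, rfl⟩
  · rw [memℓp_gen_iff hp'] at hf ⊢
    exact (e.summable_iff (f := fun n => ‖f n‖ ^ p.toReal)).2 hf

/-- Reindexing. -/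
def reidx (e : ℤ ≃ ℤ) (f : lp (fun _ : ℤ => Y) p) : lp (fun _ : ℤ => Y) p :=
  ⟨fun n => f (e n), memlp_comp (lp.memℓp f) e⟩

omit [NormedSpace 𝕜 Y] in
lemma reidx_apply (e : ℤ ≃ ℤ) (f : lp (fun _ : ℤ => Y) p) (n : ℤ) : reidx e f n = f (e n) := rfl

omit [NormedSpace 𝕜 Y] in
lemma norm_reidx (e : ℤ ≃ ℤ) (f : lp (fun _ : ℤ => Y) p) : ‖reidx e f‖ = ‖f‖ := by
  obtain (h0 | rfl | hp') := p.trichotomy
  · subst h0; exact absurd hp.out (by simp)
  · rw [lp.norm_eq_ciSup, lp.norm_eq_ciSup]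
    exact e.iSup_comp (g := fun n => ‖f n‖)
  · rw [lp.norm_eq_tsum_rpow hp', lp.norm_eq_tsum_rpow hp']
    congr 1
    exact e.tsum_eq (fun n => ‖f n‖ ^ p.toReal)

/-- `f ↦ (A (f (e n)))_n`. -/
def opFun (A : Y →L[𝕜] Y) (e : ℤ ≃ ℤ) (f : lp (fun _ : ℤ => Y) p) : lp (fun _ : ℤ => Y) p :=
  ⟨fun n => A (f (e n)), by
    refine Memℓp.mono' (lp.memℓp ((‖A‖ : 𝕜) • reidx e f)) (fun n => ?_)
    rw [lp.coeFn_smul, Pi.smul_apply, norm_smul, RCLike.norm_ofReal, abs_norm]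
    exact A.le_opNorm _⟩

lemma opFun_apply (A : Y →L[𝕜] Y) (e : ℤ ≃ ℤ) (f : lp (fun _ : ℤ => Y) p) (n : ℤ) :
    opFun A e f n = A (f (e n)) := rfl

lemma norm_opFun_le (A : Y →L[𝕜] Y) (e : ℤ ≃ ℤ) (f : lp (fun _ : ℤ => Y) p) :
    ‖opFun A e f‖ ≤ ‖A‖ * ‖f‖ := by
  have h1 : ‖(‖A‖ : 𝕜) • reidx e f‖ = ‖A‖ * ‖f‖ := by
    rw [norm_smul, RCLike.norm_ofReal, abs_norm, norm_reidx]
  rw [← h1]
  refine lp.norm_mono (by rintro rfl; exact absurd hp.out (by simp)) (fun n => ?_)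
  rw [opFun_apply, lp.coeFn_smul, Pi.smul_apply, norm_smul, RCLike.norm_ofReal, abs_norm]
  exact A.le_opNorm _

/-- `f ↦ (A (f (e n)))_n` as a bounded operator. -/
def op (A : Y →L[𝕜] Y) (e : ℤ ≃ ℤ) : lp (fun _ : ℤ => Y) p →L[𝕜] lp (fun _ : ℤ => Y) p :=
  LinearMap.mkContinuous
    { toFun := opFun A e
      map_add' := fun f g => by
        apply lp.ext
        funext n
        rw [lp.coeFn_add, Pi.add_apply, opFun_apply, opFun_apply, opFun_apply, lp.coeFn_add,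
          Pi.add_apply, map_add]
      map_smul' := fun c f => by
        apply lp.ext
        funext n
        rw [RingHom.id_apply, lp.coeFn_smul, Pi.smul_apply, opFun_apply, opFun_apply,
          lp.coeFn_smul, Pi.smul_apply, map_smul] } ‖A‖ (norm_opFun_le A e)

lemma op_apply (A : Y →L[𝕜] Y) (e : ℤ ≃ ℤ) (f : lp (fun _ : ℤ => Y) p) (n : ℤ) :
    op A e f n = A (f (e n)) := rfl

variable (p) in
/-- The shift operator on `ℓ^p(ℤ, Y)` generated by the constant sequence `S_n = A`. -/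
def shiftOp (A : Y ≃L[𝕜] Y) : lp (fun _ : ℤ => Y) p ≃L[𝕜] lp (fun _ : ℤ => Y) p :=
  ContinuousLinearEquiv.equivOfInverse (op (A : Y →L[𝕜] Y) (Equiv.addRight 1))
    (op (A.symm : Y →L[𝕜] Y) (Equiv.addRight (-1)))
    (fun f => by
      apply lp.ext
      funext n
      simp [op_apply])
    (fun f => by
      apply lp.ext
      funext n
      simp [op_apply])

lemma shiftOp_apply (A : Y ≃L[𝕜] Y) (f : lp (fun _ : ℤ => Y) p) (n : ℤ) :
    shiftOp p A f n = A (f (n + 1)) := rfl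

lemma shiftOp_symm_apply (A : Y ≃L[𝕜] Y) (f : lp (fun _ : ℤ => Y) p) (n : ℤ) :
    (shiftOp p A).symm f n = A.symm (f (n + -1)) := rfl

lemma shiftOp_iterate (A : Y ≃L[𝕜] Y) (k : ℕ) (f : lp (fun _ : ℤ => Y) p) (n : ℤ) :
    ((shiftOp p A)^[k] f) n = A^[k] (f (n + k)) := by
  induction k generalizing n with
  | zero => simp
  | succ k ih =>
    rw [Function.iterate_succ_apply', Function.iterate_succ_apply', shiftOp_apply, ih]
    have : n + 1 + (k : ℤ) = n + ((k + 1 : ℕ) : ℤ) := by push_cast; ring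
    rw [this]

lemma shiftOp_symm_iterate (A : Y ≃L[𝕜] Y) (k : ℕ) (f : lp (fun _ : ℤ => Y) p) (n : ℤ) :
    ((shiftOp p A).symm^[k] f) n = A.symm^[k] (f (n - k)) := by
  induction k generalizing n with
  | zero => simp
  | succ k ih =>
    rw [Function.iterate_succ_apply', Function.iterate_succ_apply', shiftOp_symm_apply, ih]
    have : n + -1 - (k : ℤ) = n - ((k + 1 : ℕ) : ℤ) := by push_cast; ring
    rw [this]

omit hp in
variable (𝕜) in
/-- Apply a (nonlinear) map of linear growth to each term. -/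
def mapLp (s : Y → Y) (C : ℝ) (hC : 0 ≤ C) (hs : ∀ y, ‖s y‖ ≤ C * ‖y‖)
    (f : lp (fun _ : ℤ => Y) p) : lp (fun _ : ℤ => Y) p :=
  ⟨fun n => s (f n), by
    refine Memℓp.mono' (lp.memℓp ((C : 𝕜) • f)) (fun n => ?_)
    rw [lp.coeFn_smul, Pi.smul_apply, norm_smul, RCLike.norm_ofReal, abs_of_nonneg hC]
    exact hs _⟩

omit hp in
lemma mapLp_apply (s : Y → Y) (C : ℝ) (hC : 0 ≤ C) (hs : ∀ y, ‖s y‖ ≤ C * ‖y‖)
    (f : lp (fun _ : ℤ => Y) p) (n : ℤ) : mapLp 𝕜 s C hC hs f n = s (f n) := rfl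

/-- The splitting passes from `A` to the shift operator. -/
theorem splits_shiftOp {A : Y ≃L[𝕜] Y} (h : Splits A) : Splits (shiftOp p A) := by
  have hp0 : p ≠ 0 := by rintro rfl; exact absurd hp.out (by simp)
  obtain ⟨C, hC, h⟩ := h
  choose s u hsu hs hu using h
  refine ⟨C, hC, fun f => ?_⟩
  have hs0 : ∀ y, ‖s y‖ ≤ C * ‖y‖ := fun y => by simpa using hs y 0
  have hu0 : ∀ y, ‖u y‖ ≤ C * ‖y‖ := fun y => by simpa using hu y 0
  refine ⟨mapLp 𝕜 s C hC hs0 f, mapLp 𝕜 u C hC hu0 f, ?_, ?_, ?_⟩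
  · apply lp.ext
    funext n
    rw [lp.coeFn_add, Pi.add_apply, mapLp_apply, mapLp_apply]
    exact hsu (f n)
  · intro k
    have h1 : ‖((C * (1 / 2) ^ k : ℝ) : 𝕜) • reidx (Equiv.addRight (k : ℤ)) f‖
        = C * (1 / 2) ^ k * ‖f‖ := by
      rw [norm_smul, RCLike.norm_ofReal, abs_of_nonneg (by positivity), norm_reidx]
    rw [← h1]
    refine lp.norm_mono hp0 (fun n => ?_)
    rw [shiftOp_iterate, lp.coeFn_smul, Pi.smul_apply, norm_smul, RCLike.norm_ofReal,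
      abs_of_nonneg (by positivity), reidx_apply, mapLp_apply]
    exact hs _ k
  · intro k
    have h1 : ‖((C * (1 / 2) ^ k : ℝ) : 𝕜) • reidx (Equiv.subRight (k : ℤ)) f‖
        = C * (1 / 2) ^ k * ‖f‖ := by
      rw [norm_smul, RCLike.norm_ofReal, abs_of_nonneg (by positivity), norm_reidx]
    rw [← h1]
    refine lp.norm_mono hp0 (fun n => ?_)
    rw [shiftOp_symm_iterate, lp.coeFn_smul, Pi.smul_apply, norm_smul, RCLike.norm_ofReal,
      abs_of_nonneg (by positivity), reidx_apply, mapLp_apply]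
    exact hu _ k

/-- The linear splitting passes from the shift operator to `A`. -/
theorem star_of_shiftOp {A : Y ≃L[𝕜] Y} (h : Star (shiftOp p A)) : Star A := by
  have hp0 : p ≠ 0 := by rintro rfl; exact absurd hp.out (by simp)
  obtain ⟨P, n, m, r, C, hn, hm, hr0, hr1, hC, h1, h2⟩ := h
  refine ⟨(lp.evalCLM 𝕜 (fun _ : ℤ => Y) p 0).comp
    (P.comp (lp.singleContinuousLinearMap 𝕜 (fun _ : ℤ => Y) p 0)), n, m, r, C, hn, hm, hr0, hr1,
    hC, ?_, ?_⟩
  · intro j y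
    have h3 := h1 j (lp.single p 0 y)
    rw [lp.norm_single (zero_lt_one.trans_le hp.out)] at h3
    refine le_trans ?_ h3
    refine le_trans (le_of_eq ?_) (lp.norm_apply_le_norm hp0 _ (-((n * j : ℕ) : ℤ)))
    rw [shiftOp_iterate, neg_add_cancel]
    rfl
  · intro j y
    have h3 := h2 j (lp.single p 0 y)
    rw [lp.norm_single (zero_lt_one.trans_le hp.out)] at h3
    refine le_trans ?_ h3
    refine le_trans (le_of_eq ?_) (lp.norm_apply_le_norm hp0 _ (((m * j : ℕ) : ℤ)))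
    rw [shiftOp_symm_iterate, sub_self, lp.coeFn_sub, Pi.sub_apply, lp.single_apply_self]
    rfl

end Lp


end GenS

section PhilS

variable (𝕜 : Type) [RCLike 𝕜]

/-- Bounded `𝕜`-valued functions on the countable set `List Bool`. -/
abbrev X : Type := lp (fun _ : List Bool => 𝕜) ∞

/-- Functions tending to zero at infinity. -/
def c0 : Submodule 𝕜 (X 𝕜) where
  carrier := {x | Tendsto (fun l => x l) cofinite (𝓝 0)}
  zero_mem' := by
    simp only [mem_ofPred_eq]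
    exact tendsto_const_nhds
  add_mem' := by
    intro a b ha hb
    simp only [mem_ofPred_eq] at *
    simpa using ha.add hb
  smul_mem' := by
    intro c a ha
    simp only [mem_ofPred_eq] at *
    simpa using ha.const_smul c

variable {𝕜}

lemma mem_c0 {x : X 𝕜} : x ∈ c0 𝕜 ↔ Tendsto (fun l => x l) cofinite (𝓝 0) := Iff.rfl

lemma isClosed_c0 : IsClosed (c0 𝕜 : Set (X 𝕜)) := by
  rw [← isSeqClosed_iff_isClosed]
  intro x a hx hxa
  change Tendsto (fun l => a l) cofinite (𝓝 0)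
  rw [Metric.tendsto_nhds]
  intro ε hε
  rw [Metric.tendsto_atTop] at hxa
  obtain ⟨N, hN⟩ := hxa (ε / 2) (by positivity)
  have h1 := hN N le_rfl
  have h2 := (Metric.tendsto_nhds.1 (show Tendsto (fun l => x N l) cofinite (𝓝 0) from hx N)) (ε / 2)
    (by positivity)
  filter_upwards [h2] with l hl
  have h3 : ‖(x N - a) l‖ ≤ ‖x N - a‖ := lp.norm_apply_le_norm (by simp) _ l
  rw [dist_eq_norm] at h1
  rw [dist_zero_right] at hl ⊢
  have h4 : a l = x N l - (x N - a) l := by simp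
  rw [h4]
  calc ‖x N l - (x N - a) l‖ ≤ ‖x N l‖ + ‖(x N - a) l‖ := norm_sub_le _ _
    _ < ε := by linarith

/-- Finitely supported functions are in `c0`. -/
lemma mem_c0_of_finite {x : X 𝕜} (h : {l | x l ≠ 0}.Finite) : x ∈ c0 𝕜 := by
  rw [mem_c0]
  apply tendsto_const_nhds.congr'
  have : ∀ᶠ l in cofinite, ¬ (x l ≠ 0) := by
    rw [eventually_cofinite]
    simpa using h
  filter_upwards [this] with l hl
  simpa using (not_not.1 hl).symm

/-- The branch of the binary tree given by `f`. -/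
def branch (f : ℕ → Bool) : Set (List Bool) := {l | ∀ i (h : i < l.length), l[i] = f i}

lemma branch_infinite (f : ℕ → Bool) : (branch f).Infinite := by
  refine infinite_of_injective_forall_mem (f := fun n : ℕ => List.ofFn (fun i : Fin n => f i)) ?_ ?_
  · intro n m h
    have := congrArg List.length h
    simpa using this
  · intro n i h
    simp

lemma branch_inter {f g : ℕ → Bool} (h : f ≠ g) : (branch f ∩ branch g).Finite := by
  obtain ⟨k, hk⟩ := Function.ne_iff.1 h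
  refine (List.finite_length_le Bool k).subset ?_
  rintro l ⟨h1, h2⟩
  by_contra hl
  simp only [mem_ofPred_eq, not_le] at hl
  exact hk ((h1 k hl).symm.trans (h2 k hl))

open Classical in
/-- The indicator function of a set. -/
def ind (A : Set (List Bool)) : X 𝕜 :=
  ⟨fun l => if l ∈ A then 1 else 0, by
    apply memℓp_infty
    refine ⟨1, ?_⟩
    rintro _ ⟨l, rfl⟩
    dsimp only
    split_ifs <;> simp⟩

open Classical in
lemma ind_apply (A : Set (List Bool)) (l : List Bool) :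
    (ind A : X 𝕜) l = if l ∈ A then 1 else 0 := rfl

lemma ind_notMem {A : Set (List Bool)} (hA : A.Infinite) : (ind A : X 𝕜) ∉ c0 𝕜 := by
  intro h
  rw [mem_c0] at h
  have h2 := (Metric.tendsto_nhds.1 h) 1 one_pos
  rw [eventually_cofinite] at h2
  apply hA
  refine h2.subset ?_
  intro l hl
  simp [ind_apply, hl]

open Classical in
/-- `c0` is not complemented in `X` (Phillips). -/
theorem phillips (Q : X 𝕜 →L[𝕜] X 𝕜) (hQ0 : ∀ x ∈ c0 𝕜, Q x = x) (hQ : ∀ x, Q x ∈ c0 𝕜) :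
    False := by
  set R : X 𝕜 →L[𝕜] X 𝕜 := ContinuousLinearMap.id 𝕜 _ - Q with hR
  have hR0 : ∀ x ∈ c0 𝕜, R x = 0 := by
    intro x hx
    simp [hR, hQ0 x hx]
  -- the key estimate
  have key : ∀ (l0 : List Bool) (F : Finset (ℕ → Bool)),
      ∑ f ∈ F, ‖(R (ind (branch f))) l0‖ ≤ ‖R‖ := by
    intro l0 F
    set c : (ℕ → Bool) → 𝕜 := fun f =>
      star ((R (ind (branch f))) l0) / (‖(R (ind (branch f))) l0‖ : 𝕜) with hc
    have hc1 : ∀ f, ‖c f‖ ≤ 1 := by
      intro f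
      simp only [hc, norm_div, norm_star, RCLike.norm_ofReal, abs_norm]
      exact div_self_le_one _
    have hc2 : ∀ f, c f * (R (ind (branch f))) l0 = (‖(R (ind (branch f))) l0‖ : 𝕜) := by
      intro f
      simp only [hc]
      rw [div_mul_eq_mul_div]
      have h1 : star ((R (ind (branch f))) l0) * (R (ind (branch f))) l0
          = (‖(R (ind (branch f))) l0‖ : 𝕜) ^ 2 := by
        rw [RCLike.star_def, RCLike.conj_mul]
      rw [h1]
      by_cases h0 : (‖(R (ind (branch f))) l0‖ : 𝕜) = 0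
      · rw [h0]; simp
      · field_simp
    set y : X 𝕜 := ∑ f ∈ F, c f • ind (branch f) with hy
    set D : Set (List Bool) := ⋃ f ∈ F, ⋃ g ∈ F.filter (fun g => g ≠ f), branch f ∩ branch g with hD
    have hDfin : D.Finite := by
      refine Set.Finite.biUnion (F.finite_toSet) (fun f _ => ?_)
      refine Set.Finite.biUnion ((F.filter (fun g => g ≠ f)).finite_toSet) (fun g hg => ?_)
      have : g ≠ f := by simpa using (Finset.mem_filter.1 hg).2
      exact branch_inter this.symm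
    have hyl : ∀ l, y l = ∑ f ∈ F, c f * (if l ∈ branch f then 1 else 0) := by
      intro l
      rw [hy, lp.coeFn_sum, Finset.sum_apply]
      rfl
    have hyb : ∀ l, l ∉ D → ‖y l‖ ≤ 1 := by
      intro l hl
      rw [hyl]
      by_cases h : ∃ f0 ∈ F, l ∈ branch f0
      · obtain ⟨f0, hf0, hlf⟩ := h
        rw [Finset.sum_eq_single f0]
        · simpa [hlf] using hc1 f0
        · intro g hg hgf
          have : l ∉ branch g := by
            intro h3
            apply hl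
            simp only [hD, mem_iUnion]
            exact ⟨f0, hf0, g, Finset.mem_filter.2 ⟨hg, hgf⟩, hlf, h3⟩
          simp [this]
        · intro h; exact absurd hf0 h
      · push Not at h
        rw [Finset.sum_eq_zero]
        · simp
        · intro g hg
          simp [h g hg]
    set z : X 𝕜 := ⟨fun l => if l ∈ D then 0 else y l, by
      apply memℓp_infty
      refine ⟨1, ?_⟩
      rintro _ ⟨l, rfl⟩
      dsimp only
      split_ifs with h
      · simp
      · exact hyb l h⟩ with hz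
    have hzl : ∀ l, z l = if l ∈ D then 0 else y l := fun l => rfl
    have hzn : ‖z‖ ≤ 1 := by
      apply lp.norm_le_of_forall_le zero_le_one
      intro l
      rw [hzl]
      split_ifs with h
      · simp
      · exact hyb l h
    have hyz : y - z ∈ c0 𝕜 := by
      apply mem_c0_of_finite
      refine hDfin.subset ?_
      intro l hl
      by_contra hlD
      apply hl
      rw [lp.coeFn_sub, Pi.sub_apply, hzl, if_neg hlD, sub_self]
    have hRyz : R y = R z := by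
      have := hR0 _ hyz
      rw [map_sub] at this
      exact sub_eq_zero.1 this
    have h1 : ‖(R y) l0‖ ≤ ‖R‖ := by
      rw [hRyz]
      calc ‖(R z) l0‖ ≤ ‖R z‖ := lp.norm_apply_le_norm (by simp) _ _
        _ ≤ ‖R‖ * ‖z‖ := R.le_opNorm z
        _ ≤ ‖R‖ * 1 := by gcongr
        _ = ‖R‖ := mul_one _
    have h2 : (R y) l0 = ((∑ f ∈ F, ‖(R (ind (branch f))) l0‖ : ℝ) : 𝕜) := by
      rw [hy, map_sum, lp.coeFn_sum, Finset.sum_apply]
      push_cast
      apply Finset.sum_congr rfl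
      intro f _
      rw [map_smul, lp.coeFn_smul, Pi.smul_apply, smul_eq_mul, hc2]
    rw [h2, RCLike.norm_ofReal, abs_of_nonneg (Finset.sum_nonneg (fun _ _ => norm_nonneg _))] at h1
    exact h1
  -- each level set is finite
  have hfin : ∀ (l0 : List Bool) (k : ℕ),
      {f : ℕ → Bool | 1 / ((k : ℝ) + 1) ≤ ‖(R (ind (branch f))) l0‖}.Finite := by
    intro l0 k
    by_contra hinf
    obtain ⟨N, hN⟩ := exists_nat_gt (‖R‖ * (k + 1))
    obtain ⟨F, hF, hFc⟩ := Set.Infinite.exists_subset_card_eq hinf N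
    have h1 := key l0 F
    have h2 : (N : ℝ) * (1 / ((k : ℝ) + 1)) ≤ ∑ f ∈ F, ‖(R (ind (branch f))) l0‖ := by
      rw [← hFc, ← nsmul_eq_mul]
      apply Finset.card_nsmul_le_sum
      intro f hf
      exact hF hf
    have h3 : (0:ℝ) < (k : ℝ) + 1 := by positivity
    have h4 : (N : ℝ) ≤ ‖R‖ * (k + 1) := by
      have := h2.trans h1
      rw [mul_one_div, div_le_iff₀ h3] at this
      exact this
    linarith
  have hcov : (univ : Set (ℕ → Bool)) ⊆ ⋃ l0 : List Bool, ⋃ k : ℕ,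
      {f : ℕ → Bool | 1 / ((k : ℝ) + 1) ≤ ‖(R (ind (branch f))) l0‖} := by
    intro f _
    have h1 : R (ind (branch f)) ≠ 0 := by
      intro h
      apply ind_notMem (𝕜 := 𝕜) (branch_infinite f)
      have : (ind (branch f) : X 𝕜) = Q (ind (branch f)) := by
        simp only [hR, sub_apply, ContinuousLinearMap.id_apply] at h
        exact sub_eq_zero.1 h
      rw [this]
      exact hQ _
    have h2 : ∃ l0, (R (ind (branch f))) l0 ≠ 0 := by
      by_contra h
      push Not at h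
      apply h1
      apply lp.ext
      funext l
      simpa using h l
    obtain ⟨l0, hl0⟩ := h2
    obtain ⟨k, hk⟩ := exists_nat_one_div_lt (norm_pos_iff.2 hl0)
    simp only [mem_iUnion]
    exact ⟨l0, k, hk.le⟩
  have hcount : (univ : Set (ℕ → Bool)).Countable := by
    refine Set.Countable.mono hcov ?_
    refine countable_iUnion (fun l0 => countable_iUnion (fun k => (hfin l0 k).countable))
  have : Countable (ℕ → Bool) := Set.countable_univ_iff.1 hcount
  obtain ⟨s, hs⟩ := exists_surjective_nat (ℕ → Bool)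
  obtain ⟨n, hn⟩ := hs (fun n => !(s n n))
  have h3 := congrFun hn n
  simp at h3


end PhilS

section Base

variable {𝕜 : Type} [RCLike 𝕜] {X Q : Type} [NormedAddCommGroup X] [NormedSpace 𝕜 X]
  [NormedAddCommGroup Q] [NormedSpace 𝕜 Q] (q : X →L[𝕜] Q)

lemma norm_two_zpow (m : ℤ) : ‖(2 : 𝕜) ^ m‖ = (2 : ℝ) ^ m := by
  rw [norm_zpow, RCLike.norm_two]

/-- The base space: bounded sequences `(a_n, b_n)` in the fibre with `b_n = 2^{n + |n|} q(a_n)`. -/
def W : Submodule 𝕜 (lp (fun _ : ℤ => X × Q) ∞) where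
  carrier := {f | ∀ n : ℤ, (f n).2 = (2 : 𝕜) ^ (n + |n|) • q (f n).1}
  zero_mem' := by
    intro n
    simp
  add_mem' := by
    intro f g hf hg n
    rw [lp.coeFn_add, Pi.add_apply, Prod.snd_add, Prod.fst_add, hf n, hg n, map_add, smul_add]
  smul_mem' := by
    intro c f hf n
    rw [lp.coeFn_smul, Pi.smul_apply, Prod.smul_snd, Prod.smul_fst, hf n, map_smul, smul_comm]

variable {q}

lemma mem_W {f : lp (fun _ : ℤ => X × Q) ∞} :
    f ∈ W q ↔ ∀ n : ℤ, (f n).2 = (2 : 𝕜) ^ (n + |n|) • q (f n).1 := Iff.rfl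

lemma isClosed_W : IsClosed (W q : Set (lp (fun _ : ℤ => X × Q) ∞)) := by
  have : (W q : Set (lp (fun _ : ℤ => X × Q) ∞)) =
      ⋂ n : ℤ, {f | (f n).2 = (2 : 𝕜) ^ (n + |n|) • q (f n).1} := by
    ext f
    simp only [SetLike.mem_coe, mem_iInter]
    exact Iff.rfl
  rw [this]
  refine isClosed_iInter (fun n => ?_)
  have h1 : Continuous (fun f : lp (fun _ : ℤ => X × Q) ∞ => f n) :=
    (lp.evalCLM 𝕜 (fun _ : ℤ => X × Q) ∞ n).continuous
  have h2 : Continuous (fun f : lp (fun _ : ℤ => X × Q) ∞ => (2 : 𝕜) ^ (n + |n|) • q (f n).1) :=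
    (q.continuous.comp (continuous_fst.comp h1)).const_smul _
  exact isClosed_eq (continuous_snd.comp h1) h2

lemma norm_W_le {f : W q} {C : ℝ} (hC : 0 ≤ C) (h : ∀ n, ‖f.1 n‖ ≤ C) : ‖f‖ ≤ C :=
  lp.norm_le_of_forall_le hC h

lemma norm_W_apply_le (f : W q) (n : ℤ) : ‖f.1 n‖ ≤ ‖f‖ :=
  lp.norm_apply_le_norm (by simp) f.1 n

instance completeSpace_W [CompleteSpace X] [CompleteSpace Q] : CompleteSpace (W q) :=
  isClosed_W.completeSpace_coe

lemma zpow_le_abs (m k : ℤ) (h : m ≤ |k|) : (2 : ℝ) ^ m ≤ 2 ^ |k| :=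
  zpow_le_zpow_right₀ (by norm_num) h

lemma norm_G_le (k : ℤ) (f : lp (fun _ : ℤ => X × Q) ∞) (n : ℤ) :
    ‖(((2 : 𝕜) ^ (|n - k| - |n|) • (f (n - k)).1, (2 : 𝕜) ^ k • (f (n - k)).2) : X × Q)‖
      ≤ 2 ^ |k| * ‖f‖ := by
  have h1 : ‖f (n - k)‖ ≤ ‖f‖ := lp.norm_apply_le_norm (by simp) f _
  have h2 : ‖(f (n - k)).1‖ ≤ ‖f‖ := (norm_fst_le _).trans h1
  have h3 : ‖(f (n - k)).2‖ ≤ ‖f‖ := (norm_snd_le _).trans h1
  rw [Prod.norm_mk]
  refine max_le ?_ ?_
  · rw [norm_smul, norm_two_zpow]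
    refine mul_le_mul (zpow_le_abs _ _ ?_) h2 (norm_nonneg _) (by positivity)
    have := abs_sub n k
    linarith
  · rw [norm_smul, norm_two_zpow]
    exact mul_le_mul (zpow_le_abs _ _ (le_abs_self k)) h3 (norm_nonneg _) (by positivity)

/-- The `k`-th power of the base operator, as a map. -/
def Gfun (k : ℤ) (f : W q) : W q :=
  ⟨⟨fun n => ((2 : 𝕜) ^ (|n - k| - |n|) • (f.1 (n - k)).1, (2 : 𝕜) ^ k • (f.1 (n - k)).2), by
    apply memℓp_infty
    refine ⟨2 ^ |k| * ‖f.1‖, ?_⟩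
    rintro _ ⟨n, rfl⟩
    exact norm_G_le k f.1 n⟩, by
    rw [mem_W]
    intro n
    change (2 : 𝕜) ^ k • (f.1 (n - k)).2
      = (2 : 𝕜) ^ (n + |n|) • q ((2 : 𝕜) ^ (|n - k| - |n|) • (f.1 (n - k)).1)
    rw [mem_W.1 f.2 (n - k), map_smul, smul_smul, smul_smul, ← zpow_add₀ two_ne_zero,
      ← zpow_add₀ two_ne_zero]
    congr 2
    ring⟩

lemma Gfun_apply (k : ℤ) (f : W q) (n : ℤ) :
    (Gfun k f).1 n = ((2 : 𝕜) ^ (|n - k| - |n|) • (f.1 (n - k)).1, (2 : 𝕜) ^ k • (f.1 (n - k)).2) :=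
  rfl

lemma Gfun_zero (f : W q) : Gfun 0 f = f := by
  apply Subtype.ext
  apply lp.ext
  funext n
  rw [Gfun_apply]
  simp

lemma Gfun_comp (k l : ℤ) (f : W q) : Gfun k (Gfun l f) = Gfun (k + l) f := by
  apply Subtype.ext
  apply lp.ext
  funext n
  rw [Gfun_apply, Gfun_apply, Gfun_apply]
  have h : n - k - l = n - (k + l) := by ring
  refine Prod.ext ?_ ?_
  · simp only
    rw [smul_smul, ← zpow_add₀ two_ne_zero, h]
    congr 2
    ring
  · simp only
    rw [smul_smul, ← zpow_add₀ two_ne_zero, h]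

lemma norm_Gfun_le (k : ℤ) (f : W q) : ‖Gfun k f‖ ≤ 2 ^ |k| * ‖f‖ :=
  lp.norm_le_of_forall_le (by positivity) (fun n => norm_G_le k f.1 n)

/-- The `k`-th power of the base operator, as a bounded operator. -/
def G (k : ℤ) : W q →L[𝕜] W q :=
  LinearMap.mkContinuous
    { toFun := Gfun k
      map_add' := fun f g => by
        apply Subtype.ext
        apply lp.ext
        funext n
        rw [Submodule.coe_add, lp.coeFn_add, Pi.add_apply, Gfun_apply, Gfun_apply, Gfun_apply,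
          Submodule.coe_add, lp.coeFn_add, Pi.add_apply]
        refine Prod.ext ?_ ?_
        · simp
        · simp
      map_smul' := fun c f => by
        apply Subtype.ext
        apply lp.ext
        funext n
        rw [RingHom.id_apply, Submodule.coe_smul, lp.coeFn_smul, Pi.smul_apply, Gfun_apply,
          Gfun_apply, Submodule.coe_smul, lp.coeFn_smul, Pi.smul_apply]
        refine Prod.ext ?_ ?_
        · simp only [Prod.smul_fst]
          rw [smul_comm]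
        · simp only [Prod.smul_snd]
          rw [smul_comm] } (2 ^ |k|) (norm_Gfun_le k)

lemma G_apply (k : ℤ) (f : W q) : G k f = Gfun k f := rfl

variable (q) in
/-- The base operator. -/
def T₀ : W q ≃L[𝕜] W q :=
  ContinuousLinearEquiv.equivOfInverse (G 1) (G (-1))
    (fun f => by rw [G_apply, G_apply, Gfun_comp, neg_add_cancel, Gfun_zero])
    (fun f => by rw [G_apply, G_apply, Gfun_comp, add_neg_cancel, Gfun_zero])

lemma T₀_apply (f : W q) : T₀ q f = Gfun 1 f := rfl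

lemma T₀_symm_apply (f : W q) : (T₀ q).symm f = Gfun (-1) f := rfl

lemma T₀_iterate (k : ℕ) (f : W q) : (T₀ q)^[k] f = Gfun k f := by
  induction k with
  | zero => simp [Gfun_zero]
  | succ k ih =>
    rw [Function.iterate_succ_apply', ih, T₀_apply, Gfun_comp]
    congr 1
    push_cast
    ring

lemma T₀_symm_iterate (k : ℕ) (f : W q) : (T₀ q).symm^[k] f = Gfun (-k) f := by
  induction k with
  | zero => simp [Gfun_zero]
  | succ k ih =>
    rw [Function.iterate_succ_apply', ih, T₀_symm_apply, Gfun_comp]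
    congr 1
    push_cast
    ring

/-- The base operator splits. -/
theorem splits_T₀ (hq1 : ∀ x, ‖q x‖ ≤ ‖x‖) (hlift : ∀ z, ∃ x, q x = z ∧ ‖x‖ ≤ 2 * ‖z‖) :
    Splits (T₀ q) := by
  choose lift hl1 hl2 using hlift
  refine ⟨3, by norm_num, fun f => ?_⟩
  have hf : ∀ n, ‖f.1 n‖ ≤ ‖f‖ := fun n => lp.norm_apply_le_norm (by simp) f.1 n
  have hf1 : ∀ n, ‖(f.1 n).1‖ ≤ ‖f‖ := fun n => (norm_fst_le _).trans (hf n)
  have hf2 : ∀ n, ‖(f.1 n).2‖ ≤ ‖f‖ := fun n => (norm_snd_le _).trans (hf n)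
  have hf0 : 0 ≤ ‖f‖ := norm_nonneg _
  have hlf : ∀ n, ‖lift (q (f.1 n).1)‖ ≤ 2 * ‖f‖ := fun n =>
    (hl2 _).trans (by have := hq1 (f.1 n).1; have := hf1 n; linarith)
  -- the stable part
  set sf : ℤ → X × Q := fun n =>
    if 0 ≤ n then ((f.1 n).1 - lift (q (f.1 n).1), 0) else 0 with hsf
  set uf : ℤ → X × Q := fun n =>
    if 0 ≤ n then (lift (q (f.1 n).1), (f.1 n).2) else f.1 n with huf
  have hsfn : ∀ n, ‖(sf n).1‖ ≤ 3 * ‖f‖ := by
    intro n
    simp only [hsf]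
    split_ifs with h
    · refine (norm_sub_le _ _).trans ?_
      have := hlf n
      have := hf1 n
      linarith
    · simp only [Prod.fst_zero, norm_zero]; positivity
  have hsf2 : ∀ n, (sf n).2 = 0 := by
    intro n
    simp only [hsf]
    split_ifs with h <;> rfl
  have huf2 : ∀ n, (uf n).2 = (f.1 n).2 := by
    intro n
    simp only [huf]
    split_ifs with h <;> rfl
  have hufn : ∀ n, ‖(uf n).1‖ ≤ 2 * ‖f‖ := by
    intro n
    simp only [huf]
    split_ifs with h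
    · exact hlf n
    · have := hf1 n; linarith
  set s : W q := ⟨⟨sf, by
    apply memℓp_infty
    refine ⟨3 * ‖f‖, ?_⟩
    rintro _ ⟨n, rfl⟩
    simp only
    rw [Prod.norm_def, hsf2, norm_zero]
    exact max_le (hsfn n) (by positivity)⟩, by
    rw [mem_W]
    intro n
    change (sf n).2 = (2 : 𝕜) ^ (n + |n|) • q (sf n).1
    rw [hsf2]
    simp only [hsf]
    split_ifs with h
    · simp [hl1]
    · simp⟩ with hs
  set u : W q := ⟨⟨uf, by
    apply memℓp_infty
    refine ⟨2 * ‖f‖, ?_⟩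
    rintro _ ⟨n, rfl⟩
    simp only
    rw [Prod.norm_def, huf2]
    exact max_le (hufn n) (by have := hf2 n; linarith)⟩, by
    rw [mem_W]
    intro n
    change (uf n).2 = (2 : 𝕜) ^ (n + |n|) • q (uf n).1
    rw [huf2, mem_W.1 f.2 n]
    simp only [huf]
    split_ifs with h
    · simp [hl1]
    · rfl⟩ with hu
  refine ⟨s, u, ?_, ?_, ?_⟩
  · apply Subtype.ext
    apply lp.ext
    funext n
    change sf n + uf n = f.1 n
    simp only [hsf, huf]
    split_ifs with h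
    · refine Prod.ext ?_ ?_
      · simp
      · simp
    · simp
  · intro k
    rw [T₀_iterate]
    refine norm_W_le (by positivity) (fun n => ?_)
    rw [Gfun_apply]
    change ‖((2 : 𝕜) ^ (|n - k| - |n|) • (sf (n - k)).1, (2 : 𝕜) ^ (k : ℤ) • (sf (n - k)).2)‖ ≤ _
    rw [Prod.norm_mk, hsf2, smul_zero, norm_zero]
    refine max_le ?_ (by positivity)
    by_cases h : 0 ≤ n - k
    · have e1 : |n - k| - |n| = -(k : ℤ) := by
        rw [abs_of_nonneg h, abs_of_nonneg (by omega)]; ring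
      rw [e1, norm_smul, norm_two_zpow, zpow_neg, zpow_natCast]
      have e2 : ((2 : ℝ) ^ k)⁻¹ = (1 / 2) ^ k := by rw [one_div, inv_pow]
      rw [e2]
      have := hsfn (n - k)
      calc (1 / 2 : ℝ) ^ k * ‖(sf (n - k)).1‖ ≤ (1 / 2) ^ k * (3 * ‖f‖) := by gcongr
        _ = 3 * (1 / 2) ^ k * ‖f‖ := by ring
    · have e1 : sf (n - k) = 0 := by simp only [hsf]; rw [if_neg h]
      rw [e1]
      simp only [Prod.fst_zero, smul_zero, norm_zero]
      positivity
  · intro k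
    rw [T₀_symm_iterate]
    refine norm_W_le (by positivity) (fun n => ?_)
    rw [Gfun_apply, sub_neg_eq_add]
    change ‖((2 : 𝕜) ^ (|n + k| - |n|) • (uf (n + k)).1, (2 : 𝕜) ^ (-(k : ℤ)) • (uf (n + k)).2)‖ ≤ _
    rw [Prod.norm_mk, huf2, norm_smul, norm_smul, norm_two_zpow, norm_two_zpow]
    have e2 : (2 : ℝ) ^ (-(k : ℤ)) = (1 / 2) ^ k := by
      rw [zpow_neg, zpow_natCast, one_div, inv_pow]
    refine max_le ?_ ?_
    · by_cases h : 0 ≤ n + k
      · have h1 : ‖(uf (n + k)).1‖ ≤ 2 * ((2 : ℝ) ^ (-(2 * (n + k))) * ‖f‖) := by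
          simp only [huf]
          rw [if_pos h]
          refine (hl2 _).trans ?_
          have h2 := mem_W.1 f.2 (n + k)
          have h3 : ‖(f.1 (n + k)).2‖ = (2 : ℝ) ^ (2 * (n + k)) * ‖q (f.1 (n + k)).1‖ := by
            rw [h2, norm_smul, norm_two_zpow, abs_of_nonneg h]
            congr 2
            ring
          have h4 : ‖q (f.1 (n + k)).1‖ = (2 : ℝ) ^ (-(2 * (n + k))) * ‖(f.1 (n + k)).2‖ := by
            rw [h3, ← mul_assoc, ← zpow_add₀ two_ne_zero, neg_add_cancel, zpow_zero, one_mul]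
          rw [h4]
          have := hf2 (n + k)
          gcongr
        calc (2 : ℝ) ^ (|n + k| - |n|) * ‖(uf (n + k)).1‖
            ≤ (2 : ℝ) ^ (|n + k| - |n|) * (2 * ((2 : ℝ) ^ (-(2 * (n + k))) * ‖f‖)) := by gcongr
          _ = 2 * ((2 : ℝ) ^ (|n + k| - |n| + -(2 * (n + k))) * ‖f‖) := by
            rw [zpow_add₀ two_ne_zero]; ring
          _ ≤ 2 * ((2 : ℝ) ^ (-(k : ℤ)) * ‖f‖) := by
            gcongr
            · norm_num
            · rw [abs_of_nonneg h]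
              have := neg_abs_le n
              have := le_abs_self n
              omega
          _ ≤ 3 * (1 / 2) ^ k * ‖f‖ := by
            rw [e2]
            have : 0 ≤ (1 / 2 : ℝ) ^ k * ‖f‖ := by positivity
            linarith
      · have e1 : |n + k| - |n| = -(k : ℤ) := by
          rw [abs_of_nonpos (by omega), abs_of_nonpos (by omega)]; ring
        have e3 : uf (n + k) = f.1 (n + k) := by simp only [huf]; rw [if_neg h]
        rw [e1, e2, e3]
        have := hf1 (n + k)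
        calc (1 / 2 : ℝ) ^ k * ‖(f.1 (n + k)).1‖ ≤ (1 / 2) ^ k * ‖f‖ := by gcongr
          _ ≤ 3 * (1 / 2) ^ k * ‖f‖ := by
            have : 0 ≤ (1 / 2 : ℝ) ^ k * ‖f‖ := by positivity
            linarith
    · rw [e2]
      have := hf2 (n + k)
      calc (1 / 2 : ℝ) ^ k * ‖(f.1 (n + k)).2‖ ≤ (1 / 2) ^ k * ‖f‖ := by gcongr
        _ ≤ 3 * (1 / 2) ^ k * ‖f‖ := by
          have : 0 ≤ (1 / 2 : ℝ) ^ k * ‖f‖ := by positivity
          linarith

variable (q) in
/-- The embedding of `X` in the base space at position `n`. -/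
def E (n : ℤ) : X →L[𝕜] W q :=
  ((lp.singleContinuousLinearMap 𝕜 (fun _ : ℤ => X × Q) ∞ n).comp
    ((ContinuousLinearMap.id 𝕜 X).prod ((2 : 𝕜) ^ (n + |n|) • q))).codRestrict (W q) (by
      intro x m
      change (lp.single (E := fun _ : ℤ => X × Q) ∞ n (x, (2 : 𝕜) ^ (n + |n|) • q x) m).2
        = (2 : 𝕜) ^ (m + |m|) •
          q (lp.single (E := fun _ : ℤ => X × Q) ∞ n (x, (2 : 𝕜) ^ (n + |n|) • q x) m).1
      by_cases h : m = n
      · subst h
        rw [lp.single_apply_self]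
      · rw [lp.single_apply_ne _ _ _ h]
        simp)

lemma E_coe (n : ℤ) (x : X) :
    (E q n x).1 = lp.single (E := fun _ : ℤ => X × Q) ∞ n (x, (2 : 𝕜) ^ (n + |n|) • q x) := rfl

lemma E_apply_self (n : ℤ) (x : X) : (E q n x).1 n = (x, (2 : 𝕜) ^ (n + |n|) • q x) := by
  rw [E_coe, lp.single_apply_self]

lemma norm_E_of_q_eq_zero (n : ℤ) {x : X} (hx : q x = 0) : ‖E q n x‖ = ‖x‖ := by
  change ‖(E q n x).1‖ = ‖x‖
  rw [E_coe, hx, smul_zero, lp.norm_single (by simp), Prod.norm_mk, norm_zero]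
  exact max_eq_left (norm_nonneg _)

/-- If the base operator had a linear splitting, the kernel of `q` would almost be complemented. -/
theorem exists_of_star_T₀ (h : Star (T₀ q)) :
    ∃ Φ : X →L[𝕜] X, (∀ x, q (Φ x) = 0) ∧ ∀ x, q x = 0 → ‖x - Φ x‖ ≤ 1 / 2 * ‖x‖ := by
  obtain ⟨P, n₀, m₀, r, C, hn, hm, hr0, hr1, hC, h1, h2⟩ := h
  have hlim : Tendsto (fun j : ℕ => C * r ^ j) atTop (𝓝 0) := by
    simpa using (tendsto_pow_atTop_nhds_zero_of_lt_one hr0 hr1).const_mul C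
  obtain ⟨j, hj⟩ := (hlim.eventually (gt_mem_nhds (show (0 : ℝ) < 1 / 2 by norm_num))).exists
  set N : ℕ := m₀ * j with hN
  set Φ : X →L[𝕜] X := (ContinuousLinearMap.fst 𝕜 X Q).comp
    ((lp.evalCLM 𝕜 (fun _ : ℤ => X × Q) ∞ N).comp
      ((W q).subtypeL.comp (P.comp (E q N)))) with hΦ
  have hΦx : ∀ x, Φ x = ((P (E q N x)).1 (N : ℤ)).1 := fun x => rfl
  refine ⟨Φ, fun x => ?_, fun x hx => ?_⟩
  · have key : ∀ i : ℕ, ‖q (Φ x)‖ ≤ C * r ^ i * ‖E q N x‖ := by
      intro i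
      refine le_trans ?_ (h1 i (E q N x))
      rw [T₀_iterate]
      refine le_trans ?_ (norm_W_apply_le _ ((N : ℤ) + ((n₀ * i : ℕ) : ℤ)))
      refine le_trans ?_ (norm_snd_le _)
      rw [Gfun_apply, add_sub_cancel_right, mem_W.1 (P (E q N x)).2 (N : ℤ), ← hΦx, norm_smul,
        norm_smul, norm_two_zpow, norm_two_zpow, ← mul_assoc]
      have e1 : (1 : ℝ) ≤ (2 : ℝ) ^ (((n₀ * i : ℕ) : ℤ)) * 2 ^ ((N : ℤ) + |(N : ℤ)|) := by
        rw [← zpow_add₀ two_ne_zero]
        apply one_le_zpow₀ (by norm_num)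
        positivity
      exact le_mul_of_one_le_left (norm_nonneg _) e1
    have hlim2 : Tendsto (fun i : ℕ => C * r ^ i * ‖E q N x‖) atTop (𝓝 0) := by
      simpa using hlim.mul_const ‖E q N x‖
    have := ge_of_tendsto' hlim2 key
    exact norm_le_zero_iff.1 this
  · have key := h2 j (E q N x)
    rw [T₀_symm_iterate, norm_E_of_q_eq_zero _ hx] at key
    have k2 := norm_W_apply_le (Gfun (-((m₀ * j : ℕ) : ℤ)) (E q N x - P (E q N x))) 0
    have k3 := norm_fst_le ((Gfun (-((m₀ * j : ℕ) : ℤ)) (E q N x - P (E q N x))).1 0)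
    have e1 : ((Gfun (-((m₀ * j : ℕ) : ℤ)) (E q N x - P (E q N x))).1 0).1
        = (2 : 𝕜) ^ (N : ℤ) • (x - Φ x) := by
      rw [Gfun_apply, ← hN, sub_neg_eq_add, zero_add, abs_zero, sub_zero, Nat.abs_cast,
        Submodule.coe_sub, lp.coeFn_sub, Pi.sub_apply, Prod.fst_sub, E_apply_self, ← hΦx]
    rw [e1, norm_smul, norm_two_zpow] at k3
    have e2 : (1 : ℝ) ≤ (2 : ℝ) ^ (N : ℤ) := one_le_zpow₀ (by norm_num) (by positivity)
    calc ‖x - Φ x‖ ≤ (2 : ℝ) ^ (N : ℤ) * ‖x - Φ x‖ := le_mul_of_one_le_left (norm_nonneg _) e2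
      _ ≤ C * r ^ j * ‖x‖ := k3.trans (k2.trans key)
      _ ≤ 1 / 2 * ‖x‖ := by gcongr

end Base

section Final

variable {𝕜 : Type} [RCLike 𝕜]

/-- An operator into the closed subspace `K` that is almost the identity on `K` can be corrected
to a projection onto `K`. -/
theorem exists_projection {X : Type} [NormedAddCommGroup X] [NormedSpace 𝕜 X] [CompleteSpace X]
    (K : Submodule 𝕜 X) (hK : IsClosed (K : Set X)) (Φ : X →L[𝕜] X) (h1 : ∀ x, Φ x ∈ K)
    (h2 : ∀ x ∈ K, ‖x - Φ x‖ ≤ 1 / 2 * ‖x‖) :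
    ∃ R : X →L[𝕜] X, (∀ x ∈ K, R x = x) ∧ ∀ x, R x ∈ K := by
  have : CompleteSpace K := hK.completeSpace_coe
  set Φ' : X →L[𝕜] K := Φ.codRestrict K h1 with hΦ'
  set A : K →L[𝕜] K := Φ'.comp K.subtypeL with hA
  have hA1 : ‖1 - A‖ < 1 := by
    refine lt_of_le_of_lt (ContinuousLinearMap.opNorm_le_bound _ (by norm_num) (fun x => ?_))
      (show (1 / 2 : ℝ) < 1 by norm_num)
    exact h2 x.1 x.2
  have hU := isUnit_one_sub_of_norm_lt_one hA1
  rw [sub_sub_cancel] at hU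
  obtain ⟨U, hU⟩ := hU
  set B : K →L[𝕜] K := ((U⁻¹ : (K →L[𝕜] K)ˣ) : K →L[𝕜] K) with hB
  have hBA : B * A = 1 := by rw [hB, ← hU]; simp
  refine ⟨K.subtypeL.comp (B.comp Φ'), fun x hx => ?_, fun x => Submodule.coe_mem _⟩
  have e1 : B (A ⟨x, hx⟩) = ⟨x, hx⟩ := by
    have := congrArg (fun F : K →L[𝕜] K => F ⟨x, hx⟩) hBA
    simpa using this
  exact congrArg Subtype.val e1

/-- The abstract construction. -/
theorem exists_shift {X Q : Type} [NormedAddCommGroup X] [NormedSpace 𝕜 X] [CompleteSpace X]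
    [NormedAddCommGroup Q] [NormedSpace 𝕜 Q] [CompleteSpace Q] (q : X →L[𝕜] Q)
    (hq1 : ∀ x, ‖q x‖ ≤ ‖x‖) (hlift : ∀ z, ∃ x, q x = z ∧ ‖x‖ ≤ 2 * ‖z‖)
    (hno : ¬ ∃ Φ : X →L[𝕜] X, (∀ x, q (Φ x) = 0) ∧ ∀ x, q x = 0 → ‖x - Φ x‖ ≤ 1 / 2 * ‖x‖) :
    ∃ (Y : BanachSp 𝕜) (A : Op Y), ∀ (p : ℝ≥0∞) (_ : Fact (1 ≤ p)),
      ∃ σ : Op (seqSp Y p), IsShiftOperator (fun _ => A) σ ∧
        HasShadowing σ ∧ ¬ IsGeneralizedHyperbolic σ := by
  refine ⟨⟨W q⟩, T₀ q, fun p _ => ?_⟩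
  refine ⟨shiftOp p (T₀ q), ⟨?_, fun x n => rfl⟩, ?_, ?_⟩
  · refine ⟨max ‖(T₀ q : W q →L[𝕜] W q)‖ ‖((T₀ q).symm : W q →L[𝕜] W q)‖, fun n x => ⟨?_, ?_⟩⟩
    · refine ((T₀ q : W q →L[𝕜] W q).le_opNorm x).trans ?_
      gcongr
      exact le_max_left _ _
    · refine (((T₀ q).symm : W q →L[𝕜] W q).le_opNorm x).trans ?_
      gcongr
      exact le_max_right _ _
  · exact (splits_shiftOp (splits_T₀ hq1 hlift)).shadowingAux
  · rintro ⟨M, N, h1, h2, h3, h4, h5⟩
    refine hno (exists_of_star_T₀ (star_of_shiftOp (p := p) (GenHypAux.star ?_)))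
    exact ⟨M, N, h1, h2, h3, h4.1, h5.1, h4.2, h5.2⟩

/-- The quotient norm on `ℓ^∞ / c₀`. -/
abbrev Qt (𝕜 : Type) [RCLike 𝕜] : Type := X 𝕜 ⧸ c0 𝕜

instance isClosed_c0_inst : IsClosed (c0 𝕜 : Set (X 𝕜)) := isClosed_c0

variable (𝕜) in
/-- The quotient map `ℓ^∞ → ℓ^∞ / c₀`. -/
def q₀ : X 𝕜 →L[𝕜] Qt 𝕜 :=
  LinearMap.mkContinuous (c0 𝕜).mkQ 1 (fun x => by
    rw [one_mul]
    exact Submodule.Quotient.norm_mk_le (c0 𝕜) x)

lemma norm_q₀_le (x : X 𝕜) : ‖q₀ 𝕜 x‖ ≤ ‖x‖ := Submodule.Quotient.norm_mk_le (c0 𝕜) x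

lemma q₀_eq_zero {x : X 𝕜} : q₀ 𝕜 x = 0 ↔ x ∈ c0 𝕜 := Submodule.Quotient.mk_eq_zero (c0 𝕜)

lemma exists_lift (z : Qt 𝕜) : ∃ x : X 𝕜, q₀ 𝕜 x = z ∧ ‖x‖ ≤ 2 * ‖z‖ := by
  by_cases hz : z = 0
  · exact ⟨0, by simp [hz], by simp [hz]⟩
  · have h : 0 < ‖z‖ := norm_pos_iff.2 hz
    obtain ⟨x, hx, hx2⟩ := Submodule.Quotient.norm_mk_lt z h
    exact ⟨x, hx, by linarith⟩

end Final

/-- **Main result.** Over `𝕜 = ℝ` or `ℂ` there are a Banach space `X` and a bounded invertible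
operator `A` of `X` such that for every `p ∈ [1, ∞]` the shift operator `(x_n) ↦ (A x_{n+1})` on
`ℓ^p(ℤ, X)` (generated by the constant sequence `S_n = A`) is a bounded invertible operator which
has the shadowing property but is not generalized hyperbolic. -/
theorem result (𝕜 : Type) [RCLike 𝕜] :
    ∃ (X : BanachSp 𝕜) (A : Op X), ∀ (p : ℝ≥0∞) (_ : Fact (1 ≤ p)),
      ∃ σ : Op (seqSp X p), IsShiftOperator (fun _ => A) σ ∧
        HasShadowing σ ∧ ¬ IsGeneralizedHyperbolic σ := by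
  refine exists_shift (q₀ 𝕜) norm_q₀_le exists_lift ?_
  rintro ⟨Φ, h1, h2⟩
  obtain ⟨R, h3, h4⟩ := exists_projection (c0 𝕜) isClosed_c0 Φ (fun x => q₀_eq_zero.1 (h1 x))
    (fun x hx => h2 x (q₀_eq_zero.2 hx))
  exact phillips R h3 h4

end Pool.Agent.Results.MP_0764b2_an.ShadowingNotGenHyp
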